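import Pool.Agent.H65.LN.Line

/-!
H7 LN2: the base configuration of `H65.LN` with `p` more free coordinates.
-/

open Module Submodule

namespace H7.LN2

open H65.LN

/-- indices: those of `Idx t J` and `p` free coordinates. -/
abbrev Idx3 (t J p : ℕ) : Type := Idx t J ⊕ Fin p

variable {t J p : ℕ}

/-- the space of dependencies. -/
def Base3 (t J p : ℕ) : Submodule ℝ (Idx3 t J p → ℝ) :=
  (Base t J).comap (LinearMap.funLeft ℝ ℝ Sum.inl)

theorem mem_base3 {c : Idx3 t J p → ℝ} :
    c ∈ Base3 t J p ↔ (fun i => c (.inl i)) ∈ Base t J := Iff.rfl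

theorem card_idx3 : Fintype.card (Idx3 t J p) = 9 * t + 2 * J + p := by
  rw [Fintype.card_sum, card_idx, Fintype.card_fin]

theorem finrank_base3_ge : 5 * t + J + p ≤ finrank ℝ (Base3 t J p) := by
  let g : (Base t J × (Fin p → ℝ)) →ₗ[ℝ] Base3 t J p :=
    { toFun := fun x => ⟨Sum.elim x.1.1 x.2, x.1.2⟩
      map_add' := by
        intro x y
        apply Subtype.ext
        ext z
        rcases z with i | j <;> simp
      map_smul' := by
        intro r x
        apply Subtype.ext
        ext z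
        rcases z with i | j <;> simp }
  have hg : Function.Injective g := by
    intro x y hxy
    have h1 := congrArg Subtype.val hxy
    refine Prod.ext (Subtype.ext ?_) ?_
    · ext i
      have := congrFun h1 (.inl i)
      simpa [g] using this
    · ext i
      have := congrFun h1 (.inr i)
      simpa [g] using this
  have := LinearMap.finrank_le_finrank_of_injective hg
  rw [finrank_prod, finrank_base, finrank_fintype_fun_eq_card, Fintype.card_fin] at this
  exact this

theorem base3_cs_le (X : Finset (Idx3 t J p)) :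
    finrank ℝ ↥(Base3 t J p ⊓ cs X) ≤ finrank ℝ ↥(Base t J ⊓ cs X.toLeft) + X.toRight.card := by
  classical
  let g : ↥(Base3 t J p ⊓ cs X) →ₗ[ℝ] (↥(Base t J ⊓ cs X.toLeft) × ↥(cs X.toRight)) :=
    { toFun := fun c => (⟨fun i => c.1 (.inl i), mem_base3.1 c.2.1, fun i hi => c.2.2 _ (by
          simpa using hi)⟩, ⟨fun i => c.1 (.inr i), fun i hi => c.2.2 _ (by
          simpa using hi)⟩)
      map_add' := by intro x y; rfl
      map_smul' := by intro r x; rfl }
  have hg : Function.Injective g := by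
    intro x y hxy
    apply Subtype.ext
    ext z
    rcases z with i | i
    · have h1 := congrArg (fun w => (w.1 : Idx t J → ℝ)) hxy
      exact congrFun h1 i
    · have h1 := congrArg (fun w => (w.2 : Fin p → ℝ)) hxy
      exact congrFun h1 i
  have h1 := LinearMap.finrank_le_finrank_of_injective hg
  rw [finrank_prod] at h1
  have h2 : finrank ℝ (cs X.toRight) ≤ X.toRight.card := finrank_le_card _ _ fun c hc hT => by
    ext i
    by_cases hi : i ∈ X.toRight
    · exact hT i hi
    · exact hc i hi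
  omega

/-- the counting bound. -/
theorem two_finrank3_le (X : Finset (Idx3 t J p)) :
    2 * finrank ℝ ↥(Base3 t J p ⊓ cs X) ≤ X.card + ns X.toLeft + X.toRight.card := by
  have h1 := base3_cs_le X
  have h2 := two_finrank_le X.toLeft
  have h3 := Finset.card_toLeft_add_card_toRight (u := X)
  omega

theorem finrank_base3 : finrank ℝ (Base3 t J p) = 5 * t + J + p := by
  classical
  refine le_antisymm ?_ finrank_base3_ge
  have h1 := base3_cs_le (t := t) (J := J) (p := p) Finset.univ
  rw [cs_univ, inf_top_eq] at h1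
  have h2 : finrank ℝ ↥(Base t J ⊓ cs (Finset.univ : Finset (Idx3 t J p)).toLeft) ≤
      finrank ℝ (Base t J) := Submodule.finrank_mono inf_le_left
  rw [finrank_base] at h2
  have h3 : (Finset.univ : Finset (Idx3 t J p)).toRight.card ≤ p :=
    (Finset.card_le_univ _).trans (by simp)
  omega

/-- **the rank bound.** -/
theorem rank3_le {Γ : Submodule ℝ (Idx3 t J p → ℝ)} (hΓ : Γ ≤ Base3 t J p) {m : ℕ}
    (hm : Fintype.card (Idx3 t J p) ≤ finrank ℝ Γ + (t + J) + m) {c : Idx3 t J p → ℝ}
    (hc : c ∈ Γ) :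
    finrank ℝ ↥(qsp Γ {i | 0 < c i} ⊓ qsp Γ {i | c i < 0}) ≤ m := by
  classical
  have hcB := mem_base3.1 (hΓ hc)
  have hex : ∀ i : Fin t, ∃ a a' q q', a ≠ a' ∧ q ≠ q' ∧
      ((0 ≤ c (.inl (.inl (i, a, q))) ∧ 0 ≤ c (.inl (.inl (i, a, q'))) ∧
        0 ≤ c (.inl (.inl (i, a', q))) ∧ 0 ≤ c (.inl (.inl (i, a', q')))) ∨
       (c (.inl (.inl (i, a, q))) ≤ 0 ∧ c (.inl (.inl (i, a, q'))) ≤ 0 ∧
        c (.inl (.inl (i, a', q))) ≤ 0 ∧ c (.inl (.inl (i, a', q'))) ≤ 0)) := fun i =>
    exists_cycle (c := fun a q => c (.inl (.inl (i, a, q)))) (fun a q a' q' => hcB.1 i a q a' q')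
  choose a a' q q' ha hq hs using hex
  let zf : (Idx3 t J p → ℝ) →ₗ[ℝ] (Fin t ⊕ Fin J → ℝ) :=
    (zfun (J := J) a a' q q').comp (LinearMap.funLeft ℝ ℝ Sum.inl)
  have hker : Γ ≤ LinearMap.ker zf := fun x hx => by
    rw [LinearMap.mem_ker]
    exact zfun_base a a' q q' (mem_base3.1 (hΓ hx))
  let Z : ((Idx3 t J p → ℝ) ⧸ Γ) →ₗ[ℝ] (Fin t ⊕ Fin J → ℝ) := Γ.liftQ _ hker
  have hZ : ∀ x, Z (qv Γ x) = zf (Pi.single x 1) := by
    intro x
    change Γ.liftQ _ hker (Γ.mkQ (Pi.single x 1)) = _
    rw [Submodule.mkQ_apply, Submodule.liftQ_apply]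
  have hsurj : Function.Surjective Z := by
    intro y
    obtain ⟨x, hx⟩ := zfun_surj (J := J) ha hq y
    refine ⟨Γ.mkQ (Sum.elim x 0), ?_⟩
    change Γ.liftQ _ hker (Γ.mkQ (Sum.elim x 0)) = _
    rw [Submodule.mkQ_apply, Submodule.liftQ_apply]
    exact hx
  have h1 := LinearMap.finrank_range_add_finrank_ker Z
  rw [LinearMap.range_eq_top.2 hsurj, finrank_top, finrank_fintype_fun_eq_card] at h1
  have h2 : Fintype.card (Fin t ⊕ Fin J) = t + J := by simp
  have h3 := Submodule.finrank_quotient_add_finrank Γ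
  rw [finrank_fintype_fun_eq_card] at h3
  -- coordinates vanish on one side
  have hside : ∀ (Y : Set (Idx3 t J p)) (z : Fin t ⊕ Fin J),
      (∀ x ∈ Y, zf (Pi.single x 1) z = 0) → ∀ v ∈ qsp Γ Y, Z v z = 0 := by
    intro Y z hY v hv
    unfold qsp at hv
    induction hv using Submodule.span_induction with
    | mem v hv =>
      obtain ⟨x, hx, rfl⟩ := hv
      rw [hZ]
      exact hY x hx
    | zero => simp
    | add v w _ _ h4 h5 => rw [map_add, Pi.add_apply, h4, h5, add_zero]
    | smul r v _ h4 => rw [map_smul, Pi.smul_apply, h4, smul_zero]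
  have hle : qsp Γ {i | 0 < c i} ⊓ qsp Γ {i | c i < 0} ≤ LinearMap.ker Z := by
    rintro v ⟨hv1, hv2⟩
    rw [LinearMap.mem_ker]
    ext z
    rw [Pi.zero_apply]
    rcases z with i | j
    · have key : ∀ x : Idx3 t J p, (.inl (.inl (i, a i, q i)) : Idx3 t J p) ≠ x →
          (.inl (.inl (i, a i, q' i)) : Idx3 t J p) ≠ x →
          (.inl (.inl (i, a' i, q i)) : Idx3 t J p) ≠ x →
          (.inl (.inl (i, a' i, q' i)) : Idx3 t J p) ≠ x → zf (Pi.single x 1) (.inl i) = 0 := by
        intro x b1 b2 b3 b4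
        change (Pi.single x 1 : Idx3 t J p → ℝ) (.inl (.inl (i, a i, q i))) -
          (Pi.single x 1 : Idx3 t J p → ℝ) (.inl (.inl (i, a i, q' i))) -
          (Pi.single x 1 : Idx3 t J p → ℝ) (.inl (.inl (i, a' i, q i))) +
          (Pi.single x 1 : Idx3 t J p → ℝ) (.inl (.inl (i, a' i, q' i))) = 0
        rw [Pi.single_eq_of_ne b1, Pi.single_eq_of_ne b2, Pi.single_eq_of_ne b3,
          Pi.single_eq_of_ne b4]
        ring
      rcases hs i with ⟨a1, a2, a3, a4⟩ | ⟨a1, a2, a3, a4⟩
      · refine hside _ _ (fun x hx => ?_) v hv2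
        have hx' : c x < 0 := hx
        exact key x (by rintro rfl; exact absurd hx' (not_lt.2 a1))
          (by rintro rfl; exact absurd hx' (not_lt.2 a2))
          (by rintro rfl; exact absurd hx' (not_lt.2 a3))
          (by rintro rfl; exact absurd hx' (not_lt.2 a4))
      · refine hside _ _ (fun x hx => ?_) v hv1
        have hx' : 0 < c x := hx
        exact key x (by rintro rfl; exact absurd hx' (not_lt.2 a1))
          (by rintro rfl; exact absurd hx' (not_lt.2 a2))
          (by rintro rfl; exact absurd hx' (not_lt.2 a3))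
          (by rintro rfl; exact absurd hx' (not_lt.2 a4))
    · have key : ∀ x : Idx3 t J p, (.inl (.inr (j, false)) : Idx3 t J p) ≠ x →
          (.inl (.inr (j, true)) : Idx3 t J p) ≠ x → zf (Pi.single x 1) (.inr j) = 0 := by
        intro x b1 b2
        change (Pi.single x 1 : Idx3 t J p → ℝ) (.inl (.inr (j, false))) -
          (Pi.single x 1 : Idx3 t J p → ℝ) (.inl (.inr (j, true))) = 0
        rw [Pi.single_eq_of_ne b1, Pi.single_eq_of_ne b2]
        ring
      have h6 : c (.inl (.inr (j, false))) = c (.inl (.inr (j, true))) := hcB.2 j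
      rcases le_total 0 (c (.inl (.inr (j, false)))) with h | h
      · have h' : 0 ≤ c (.inl (.inr (j, true))) := by rw [← h6]; exact h
        refine hside _ _ (fun x hx => ?_) v hv2
        have hx' : c x < 0 := hx
        exact key x (by rintro rfl; exact absurd hx' (not_lt.2 h))
          (by rintro rfl; exact absurd hx' (not_lt.2 h'))
      · have h' : c (.inl (.inr (j, true))) ≤ 0 := by rw [← h6]; exact h
        refine hside _ _ (fun x hx => ?_) v hv1
        have hx' : 0 < c x := hx
        exact key x (by rintro rfl; exact absurd hx' (not_lt.2 h))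
          (by rintro rfl; exact absurd hx' (not_lt.2 h'))
  have h4 := Submodule.finrank_mono hle
  omega

/-- **the lower bound from copies of `K_{3,3}` and free points.** -/
theorem bound_loops {k d t j J p : ℕ} (hkd : k ≤ d) (hj : 1 ≤ j) (h1 : 3 * t + j ≤ k)
    (h2 : k + 1 + 4 * p < 9 * j) (h3 : d + 1 = 4 * t + J + j) (h4 : j ≤ 5 * t + J + p) :
    9 * t + 2 * J + p < H15.nDiv k d := by
  classical
  obtain ⟨Γ, hΓ, hdim, hX, hψ⟩ := exists_generic_sub j (Base3 t J p)
    (by rw [finrank_base3]; exact h4)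
  obtain ⟨ψ, hψ0, hψΓ⟩ := hψ hj
  rw [finrank_base3] at hdim
  have hcard : Fintype.card (Idx3 t J p) = 9 * t + 2 * J + p := card_idx3
  rw [← hcard]
  refine lt_nDiv hkd Γ ψ hψ0 hψΓ (by omega) (fun X h5 => ?_) (fun X h5 => ?_) fun c hc =>
    rank3_le hΓ (by omega) hc
  · have h6 := hX X
    have h7 := two_finrank3_le (t := t) (J := J) X
    have h8 := nine_ns_le X.toLeft
    have h9 : X.toRight.card ≤ p := (Finset.card_le_univ _).trans (by simp)
    have h10 := Finset.card_toLeft_add_card_toRight (u := X)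
    have h11 : finrank ℝ ↥(Γ ⊓ cs X) = 0 := by omega
    exact Submodule.finrank_eq_zero.1 h11
  · have h6 := hX X
    have h7 := two_finrank3_le (t := t) (J := J) X
    have h8 := nine_ns_le X.toLeft
    have h9 : X.toRight.card ≤ p := (Finset.card_le_univ _).trans (by simp)
    have h10 := Finset.card_toLeft_add_card_toRight (u := X)
    omega

/-- **the lower bound for all pairs.** -/
theorem key_all {k d : ℕ} (hk3 : 3 ≤ k) (hk2 : k + 2 ≤ d) :
    54 * d + 2 * k + 41 ≤ 27 * H15.nDiv k d := by
  have hkd : k ≤ d := by omega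
  rcases Nat.lt_or_ge k 7 with h7 | h7
  · have := bound_loops (k := k) (d := d) (t := 0) (j := k) (J := d + 1 - k) (p := 2 * k - 1) hkd
      (by omega) (by omega) (by omega) (by omega) (by omega)
    omega
  · obtain ⟨q, a, hqa⟩ : ∃ q a, k = 27 * q + 7 + a ∧ a ≤ 26 :=
      ⟨(k - 7) / 27, (k - 7) % 27, by omega, by omega⟩
    obtain ⟨hq, ha⟩ := hqa
    have hline := bound_line hk3 hk2
    rcases Nat.lt_or_ge a 14 with h14 | h14
    · rcases Nat.lt_or_ge (d + 1) (35 * q + 9 + a) with h | h
      · omega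
      · have := bound_loops (k := k) (d := d) (t := 8 * q + 2) (j := 3 * q + 1 + a)
          (J := d + 1 - 4 * (8 * q + 2) - (3 * q + 1 + a)) (p := 2 * a) hkd
          (by omega) (by omega) (by omega) (by omega) (by omega)
        omega
    · rcases Nat.lt_or_ge (d + 1) (35 * q + 13 + a) with h | h
      · omega
      · have := bound_loops (k := k) (d := d) (t := 8 * q + 6) (j := 3 * q + 3 + (a - 14))
          (J := d + 1 - 4 * (8 * q + 6) - (3 * q + 3 + (a - 14))) (p := 2 * (a - 14) + 1) hkd
          (by omega) (by omega) (by omega) (by omega) (by omega)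
        omega

end H7.LN2
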